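import Pool.Agent.H.MP_b3d828_pr.B

set_option autoImplicit false
open MeasureTheory ProbabilityTheory Filter Topology Asymptotics
open Pool.Agent.H.MP_b3d828_pr

namespace Pool.Agent.Results.MP_b3d828_pr.No

lemma pw (L : ℕ) (h : 8 ≤ L) : 8 * L ≤ 2 ^ L := by
  induction L, h using Nat.le_induction with
  | base => norm_num
  | succ m hm ih => rw [pow_succ]; omega

lemma one (n : ℕ) : ∃ (d : ℕ) (p : ℝ) (μ : Measure (SimpleGraph (Fin n))), Dep n d p μ ∧
    (8 ≤ Nat.log 2 n → d * Nat.log 2 n ≤ 2 * n ∧ p = 8 * Real.log (Nat.log 2 n) / n ∧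
      1 - μ.real {G | G.Connected} ≤ 4 * (Nat.log 2 n : ℝ)⁻¹) := by
  by_cases h : 8 ≤ Nat.log 2 n
  swap
  · exact ⟨0, (0 : unitInterval), _, block 0 id 0 (fun e => by simp), fun h' => absurd h' h⟩
  set L := Nat.log 2 n with hL
  have hn0 : n ≠ 0 := by rintro rfl; simp at hL; omega
  have h1 : 8 * L ≤ n := (pw L h).trans (Nat.pow_log_le_self 2 hn0)
  have h2 : 8 ≤ n / L := (Nat.le_div_iff_mul_le (by omega)).2 h1
  obtain ⟨s, hs, hs1, hs2⟩ := Nat.exists_prime_lt_and_le_two_mul (n / L) (by omega)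
  have : Fact s.Prime := ⟨hs⟩
  have h3 : n / L * L ≤ n := Nat.div_mul_le_self _ _
  have h4 : n < s * L := (Nat.div_lt_iff_lt_mul (by omega)).1 hs1
  have h5 : n / s < L := (Nat.div_lt_iff_lt_mul hs.pos).2 (by rwa [mul_comm])
  have h6 : n < n / s * s + s := Nat.lt_div_mul_add hs.pos
  have hLr : (8 : ℝ) ≤ L := by exact_mod_cast h
  have hnr : (8 * L : ℝ) ≤ n := by exact_mod_cast h1
  have hlog : 0 ≤ Real.log L := Real.log_nonneg (by linarith)
  have hlog2 : Real.log L ≤ L := (Real.log_le_sub_one_of_pos (by linarith)).trans (by linarith)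
  let p : unitInterval := ⟨8 * Real.log L / n, by positivity,
    (div_le_one (by linarith)).2 (by linarith)⟩
  refine ⟨s, p, _, block p (cc s n) s (fun e => (cc_fib e).trans (Nat.le_succ _)), fun _ =>
    ⟨by nlinarith, rfl, prob n p _ (by omega) (by nlinarith) (le_of_eq ?_) ?_⟩⟩
  · rw [show (p : ℝ) * n / 8 = Real.log L by
      simp only [p]; field_simp, Real.exp_neg, Real.exp_log (by linarith)]
  · rw [← div_eq_mul_inv, div_le_one (by linarith)]
    exact_mod_cast h5.le

theorem result : ∃ (d : ℕ → ℕ) (p : ℕ → ℝ) (μ : ∀ n : ℕ, Measure (SimpleGraph (Fin n))),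
    (fun n => (d n : ℝ)) =O[atTop] (fun n : ℕ => (n : ℝ) / Real.log n) ∧
    p =o[atTop] (fun n : ℕ => Real.log n / (n : ℝ)) ∧
    (∀ n, Dep n (d n) (p n) (μ n)) ∧
    Tendsto (fun n => (μ n).real {G | G.Connected}) atTop (𝓝 1) := by
  choose d p μ hD h using one
  have hT : Tendsto (fun n => Nat.log 2 n) atTop atTop :=
    tendsto_atTop.2 fun b => (eventually_ge_atTop (2 ^ b)).mono fun n hn =>
      Nat.le_log_of_pow_le (by norm_num) hn
  have hTr : Tendsto (fun n => (Nat.log 2 n : ℝ)) atTop atTop := tendsto_natCast_atTop_atTop.comp hT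
  have hev := hT.eventually_ge_atTop 8
  have hb : ∀ n : ℕ, 8 ≤ Nat.log 2 n → (0 : ℝ) < n ∧ (Nat.log 2 n : ℝ) ≤ 2 * Real.log n ∧
      Real.log n ≤ 2 * Nat.log 2 n := by
    intro n hn
    have hn0 : n ≠ 0 := by rintro rfl; simp at hn
    have hp : (0 : ℝ) < n := by positivity
    have h1 : ((2 : ℝ)) ^ Nat.log 2 n ≤ n := by exact_mod_cast Nat.pow_log_le_self 2 hn0
    have h2 : (n : ℝ) ≤ 2 ^ (Nat.log 2 n + 1) := by
      exact_mod_cast (Nat.lt_pow_succ_log_self (by norm_num) n).le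
    have h3 := Real.log_le_log (by positivity) h1
    have h4 := Real.log_le_log hp h2
    rw [Real.log_pow] at h3 h4
    have h8 : (8 : ℝ) ≤ Nat.log 2 n := by exact_mod_cast hn
    push_cast at h4
    exact ⟨hp, by nlinarith [Real.log_two_gt_d9], by nlinarith [Real.log_two_lt_d9]⟩
  refine ⟨d, p, μ, IsBigO.of_bound 4 (hev.mono fun n hn => ?_), ?_, hD, ?_⟩
  · obtain ⟨h0, h1, h2⟩ := hb n hn
    have h8 : (8 : ℝ) ≤ Nat.log 2 n := by exact_mod_cast hn
    have h3 : (d n : ℝ) * Nat.log 2 n ≤ 2 * n := by exact_mod_cast (h n hn).1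
    have h4 : 0 < Real.log n := by linarith
    rw [Real.norm_of_nonneg (by positivity), Real.norm_of_nonneg (by positivity), ← mul_div_assoc,
      le_div_iff₀ h4]
    nlinarith [(Nat.cast_nonneg (d n) : (0 : ℝ) ≤ d n)]
  · have h1 : (fun n => Real.log (Nat.log 2 n : ℝ)) =o[atTop] (fun n => (Nat.log 2 n : ℝ)) :=
      Real.isLittleO_log_id_atTop.comp_tendsto hTr
    have h2 : (fun n => (Nat.log 2 n : ℝ)) =O[atTop] (fun n : ℕ => Real.log n) :=
      IsBigO.of_bound 2 (hev.mono fun n hn => by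
        obtain ⟨h0, h1, h2⟩ := hb n hn
        have h8 : (8 : ℝ) ≤ Nat.log 2 n := by exact_mod_cast hn
        rw [Real.norm_of_nonneg (by positivity), Real.norm_of_nonneg (by linarith)]
        exact h1)
    have h3 := ((h1.trans_isBigO h2).const_mul_left 8).mul_isBigO
      (isBigO_refl (fun n : ℕ => (n : ℝ)⁻¹) atTop)
    refine h3.congr' (hev.mono fun n hn => ?_) (Eventually.of_forall fun n => ?_)
    · simp only [(h n hn).2.1, div_eq_mul_inv]
    · simp only [div_eq_mul_inv]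
  · have h1 : Tendsto (fun n => 1 - 4 * (Nat.log 2 n : ℝ)⁻¹) atTop (𝓝 1) := by
      simpa using (hTr.inv_tendsto_atTop.const_mul 4).const_sub 1
    refine tendsto_of_tendsto_of_tendsto_of_le_of_le' h1 tendsto_const_nhds
      (hev.mono fun n hn => ?_) (Eventually.of_forall fun n => ?_)
    · linarith [(h n hn).2.2]
    · have := (hD n).1
      exact measureReal_le_one

end Pool.Agent.Results.MP_b3d828_pr.No
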